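import Pool.Agent.J4.H13.CC.Main

/-!
# Abelian varieties attached to Hilbert modular newforms: a criterion by congruences

Let `f` be a Hilbert modular newform of parallel weight two with trivial central character over a totally
real field `k`, with the field of eigenvalues `M_f`, and let `T` be a Galois-stable lattice (over the ring
of integers of `ℚ̄_ℓ`) in one of the `ℓ`-adic representations `ρ_{f, τ}`. In the construction of Taylor
the representations `T / ℓ ^ n T` are found in abelian varieties (factors of the Jacobians of Shimura
curves, attached to newforms with an odd exponent of the level at an auxiliary prime), the dimensions of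
which, or the places of bad reduction, are not bounded. We show that Q1 is exactly the question whether
there are such abelian varieties with bounds:

* *Equivalence.* The abelian variety `A_f` exists if and only if there are bounds `D`, `d` and a finite
  set `S` of prime numbers such that for infinitely many `n` the representation `T / ℓ ^ n T` embeds, over
  some field `k' ⊇ k` of degree at most `D` unramified outside `S`, into `T' / ℓ ^ n T'` for some lattice
  `T'` in the Tate module of some abelian variety over `k'` of dimension at most `d` with good reduction
  outside `S`; and if and only if for all `n` it embeds in this way into an abelian variety over `k` of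
  dimension `[M_f : ℚ]` with good reduction outside the level of `f`.
* *One level is enough.* For given bounds one `n ≥ n₀(f, T, D, d, S)` is enough, and `A_f` exists if and
  only if `T / ℓ ^ n T` embeds into an abelian variety over `k` of dimension `[M_f : ℚ]` with good reduction
  outside the level, for one (and then all) `n ≥ n₀(f, T)`.
* *Q1.* By the reduction to level one (`ReductionToLevelOne`), Q1 is equivalent to the existence of such
  bounds for the newforms of level one over the totally real fields of even degree which contain a given
  totally real field `L`, and which are not commensurable with newforms covered by the theorem of Zhang.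

## The formal statement

The framework is the one of `ReductionToLevelOne`. In addition there are the sets `bad A` of the prime
numbers under the places of bad reduction of `A`, and the known facts `Reductions.IsKnown` (Hermite and
Minkowski; Faltings: finiteness of the isogeny classes, semisimplicity) and `LevelKnown` (the level has
finitely many prime divisors, the representations of `f` contain lattices, `A_f` has good reduction outside
the level).

## The proof

Let `V = ρ_{f, τ}` restricted to `k'` and let `W` be the Tate module of an abelian variety over `k'`, which is
semisimple. If there is no nonzero equivariant map `V → W`, then some element `c` of the group ring kills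
`W` but not `V`: otherwise `V` would be a module over the quotient of the group ring by the annihilator of
`W`, which is semisimple and embeds into a power of `W`. We may assume that the coefficients of `c` are
integral. If `T / ℓ ^ n T` embeds into `T' / ℓ ^ n T'` for some lattice `T' ⊆ W`, then `c T ⊆ ℓ ^ n T`, since
`c` kills `T'`; this is impossible for large `n`. By the theorems of Faltings and Hermite there are only
finitely many pairs `(k', W)` with given bounds, so that the same `n₀` works for all of them. Then `V → W` is
nonzero for some abelian variety, and `A_f` exists by `ReductionToLevelOne`.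
-/

set_option autoImplicit false

namespace Pool.Agent.Results.MP_6cbef8_nt.CongruenceCriterion

open Pool.Agent.J4.H9.HM Pool.Agent.J4.H13.CC

/-- **`A_f` exists if and only if its congruences occur in abelian varieties with bounds.** -/
theorem result {ℓ : ℕ} [Fact ℓ.Prime] {𝒜 : AbVars ℓ} (hA : 𝒜.IsKnown) {ℛ : Reductions 𝒜}
    (hℛ : ℛ.IsKnown) {𝒩 : Newforms ℓ}
    (hN : ∀ k : NField, k.IsTotReal → ∀ f : 𝒩.New k, 𝒩.IsKnown 𝒜 f)
    (hL : ∀ k : NField, k.IsTotReal → ∀ f : 𝒩.New k, LevelKnown ℛ f) :
    (∀ k : NField, k.IsTotReal → ∀ (f : 𝒩.New k) (τ : 𝒩.M f →+* Qlb ℓ)
      (T : Lattice (𝒩.ρ f τ)),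
      -- the criterion
      List.TFAE [HasAV 𝒜 𝒩 f, OccursBoundedly ℛ T, ∀ n, OccursAt ℛ f T n] ∧
      -- one level is enough
      (∀ (D d : ℕ) (S : Finset ℕ), ∃ n₀, ∀ n ≥ n₀, OccursModulo ℛ T D d S n → HasAV 𝒜 𝒩 f) ∧
      ∃ n₀, ∀ n ≥ n₀, (HasAV 𝒜 𝒩 f ↔ OccursAt ℛ f T n)) ∧
    -- Q1
    (HasBaseChange 𝒩 → ZhangTheorem 𝒜 𝒩 → ∀ L : NField, L.IsTotReal →
      (Q1 𝒜 𝒩 ↔ RemainingCongruences ℛ 𝒩 L)) :=
  ⟨fun _ hk f _ T => ⟨tfae hA hℛ hk (hN _ hk f) (hL _ hk f) T,
      has_of_modulo hA hℛ hk (hN _ hk f) T, one_level hA hℛ hk (hN _ hk f) (hL _ hk f) T⟩,
    fun hb hZ _ hLr => q1_iff hA hℛ hN hL hb hZ hLr⟩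

end Pool.Agent.Results.MP_6cbef8_nt.CongruenceCriterion
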