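import Pool.Agent.J4.H28.PI.Final

/-!
# Abelian varieties attached to potentially invariant Hilbert modular newforms

Q1 asks for a simple abelian variety `A_f` with `L(A_f, s) = ∏ L(f^τ, s)` for every Hilbert modular
newform `f` of parallel weight two with trivial central character over a totally real field `k` of even
degree, whose level has even exponents at all places. Let `ρ = ρ_{f, τ}` be one of the `ℓ`-adic
representations of `f`. For an automorphism `g` of the field of algebraic numbers the conjugate of `ρ` by
`g` is the representation `ρ(g u g⁻¹)`, the representation of the newform conjugate to `f`. We say that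
`g` fixes `ρ` potentially if `ρ` is isomorphic to this conjugate over some finite extension of `k` (so the
newform and its conjugate by `g` agree up to a twist of finite order after a base change), and that `ρ` is
potentially invariant under the Galois group of a number field `L` if all elements of this group fix `ρ`
potentially. The field `L` need not be contained in `k`.

* **The field of invariance.** There is a smallest number field `L₀` such that `ρ` is potentially invariant
  under the Galois group of `L₀`. It is contained in `k`, and it is the same for all newforms
  commensurable with `f`.
* **Extension.** If `f` has no complex multiplication (`ρ` is strongly irreducible), then `ρ` is potentially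
  invariant under the Galois group of `L` if and only if there is a two-dimensional representation `R` of
  this group itself which is isomorphic to `ρ` over some finite extension (and the determinant of `R` is
  the cyclotomic one up to a character of finite order). Then `A_f` exists if and only if `R` occurs
  potentially in abelian varieties.
* **Q1 for invariant newforms.** `A_f` exists, of dimension `[M_f : ℚ]` and with endomorphism algebra
  `M_f`, for all newforms `f` without complex multiplication, over any totally real field `k`, which are
  potentially invariant under the Galois group of `ℚ`, or of some field `L` of odd degree such that `k` is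
  a solvable Galois extension of `L`. If `k` is a Galois extension of `ℚ`, the fixed field of a Sylow
  `2`-subgroup of its Galois group is such a field `L`, so that it is enough that the conjugates of `f`
  by the elements of this subgroup are twists of `f` by characters of finite order. Note that `R` may
  belong to a newform with non-trivial central character, so that `f` need not be commensurable with a
  newform as in Q1 over `L`. The known theorems used are the modularity of `R` for `L = ℚ` (Khare,
  Wintenberger, Kisin) and the descent of automorphic representations in solvable extensions
  (Langlands), and the theorems of Shimura and Carayol for newforms over fields of odd degree.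
* **The remaining case.** Q1 is equivalent to the same statement for the newforms of level one over fields
  of even degree which are commensurable neither with newforms covered by the theorem of Zhang nor with
  invariant newforms.

## The proof

Extension (the method of Ribet for elliptic `ℚ`-curves): let `K` be a normal extension of `ℚ` over which
all conjugates of `ρ` by elements of `G = Gal(ℚ̄/L)` are isomorphic to `ρ` (finitely many conjugates are
enough), and `U = Gal(ℚ̄/K)`. Let `δ` be the character of `G` which extends the determinant of `ρ`. For
every coset `s U` choose `B(s)` with `B(s) ρ(u) B(s)⁻¹ = ρ(s u s⁻¹)` for `u` in `U` and determinant `δ(s)`, and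
put `A(s u) = B(s) ρ(u)`. By the lemma of Schur `A(g) A(h) = c(g, h) A(g h)` with a cocycle `c(g, h) = ± 1`
on `G / U`. By the theorem of Tate it is the coboundary of a continuous function `μ` with values in the
roots of unity, and `R(g) = μ(g) A(g)` is the extension. Then the descent of `ReductionToLevelOne` is
used. The field of invariance exists because the elements which fix `ρ` potentially are an open
subgroup.
-/

set_option autoImplicit false

namespace Pool.Agent.Results.MP_6cbef8_nt.PotentiallyInvariantForms

open Pool.Agent.J4.H9.HM Pool.Agent.J4.H28.PI

/-- **The field of invariance, extension, the abelian varieties attached to invariant newforms, and the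
remaining case of Q1.** -/
theorem result {ℓ : ℕ} [Fact ℓ.Prime] {𝒜 : AbVars ℓ} (hA : 𝒜.IsKnown) {𝒩 : Newforms ℓ}
    (hN : ∀ k : NField, k.IsTotReal → ∀ f : 𝒩.New k, 𝒩.IsKnown 𝒜 f)
    {δ : Chr ℓ ratField} (hδ : HasDet 𝒩 δ) (hT : TateTheorem ℓ) :
    FieldsOfInvariance 𝒩 ∧
    (∀ L : NField, ExtensionCriterion 𝒜 𝒩 δ L) ∧
    (ModularityOverRat 𝒜 𝒩 → SolvableDescent 𝒜 𝒩 → InvariantHaveAV 𝒜 𝒩 ∧
      (HasBaseChange 𝒩 → ZhangTheorem 𝒜 𝒩 →
        ∀ L : NField, L.IsTotReal → (Q1 𝒜 𝒩 ↔ RemainingNotInvariant 𝒜 𝒩 L))) := by
  refine ⟨fun k f τ => ?_, fun L k hk f τ hs => ⟨⟨fun h => ?_, fun ⟨R, hR⟩ => backward hR.isom⟩,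
    fun R hR => hasAV_iff hA hk (hN k hk f) hR⟩, fun hM hD => ?_⟩
  · obtain ⟨L₀, h₁, h₂⟩ := exists_smallest (𝒩.ρ f τ)
    refine ⟨L₀, ⟨h₁, h₂⟩, fun k₂ f₂ τ₂ h => ⟨?_, fun L =>
      ⟨fun h' => (h₂ L).1 (h.symm.invariant h'), fun h' => h.invariant ((h₂ L).2 h')⟩⟩⟩
    obtain ⟨L₁, h₃, h₄⟩ := exists_smallest (𝒩.ρ f₂ τ₂)
    exact ((h₂ L₁).1 (h.symm.invariant ((h₄ L₁).2 le_rfl))).trans h₃
  · exact forward hT ((hN k hk f).two τ) hs (hδ k hk f τ) h
  · have h := invariant_hasAV hA hN hδ hT hM hD
    exact ⟨h, fun hb hZ L hL => remaining hA hN h hb hZ hL⟩

end Pool.Agent.Results.MP_6cbef8_nt.PotentiallyInvariantForms
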