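import Pool.Agent.J4.H9.HM.Main

/-!
# Abelian varieties attached to Hilbert modular newforms: reduction to level one

Q1 asks for a simple abelian variety `A_f` with `L(A_f, s) = ∏ L(f^τ, s)` for every Hilbert modular
newform `f` of parallel weight two with trivial central character over a totally real field of even
degree, whose level has even exponents at all places (otherwise `A_f` exists by the theorem of Zhang).
We show:

* **Q1 is equivalent to the same statement for the everywhere unramified newforms (`N = 1`).** It is even
  enough to consider the totally real fields of even degree which contain a given totally real field `L`,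
  and the newforms of level one over them which are not commensurable with newforms covered by the theorem
  of Zhang, and to show that their representations occur *potentially* in *some* abelian varieties.
* *Commensurable newforms.* Let `f₁`, `f₂` be newforms over totally real fields `k₁`, `k₂` (neither has to
  contain the other) such that `ρ_{f₁, τ₁}` and `ρ_{f₂, τ₂}` become isomorphic over some common finite
  extension. Then `A_{f₁}` exists if and only if `A_{f₂}` exists. So Q1 holds for all newforms which are
  commensurable with a newform over a field of odd degree or with an odd exponent of the level: base changes,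
  twists of base changes by characters of finite order, forms with common base changes, and so on.
* *Descent.* `A_f` exists, of dimension `[M_f : ℚ]` and with endomorphism algebra `M_f`, if and only if
  for some finite extension `k'` (which may be arbitrary, not only totally real) the restriction to `k'`
  of one of the representations `ρ_{f, τ}` occurs in the Tate module of an abelian variety `B` over `k'`
  (of any dimension, with arbitrary endomorphisms).

## The formal statement

Number fields are the finite extensions `k` of `ℚ` inside the algebraic closure, `k.Gal` is the absolute
Galois group, `k.Pl` the set of the finite places, and `IsFrob v g` says that `g` is a Frobenius element at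
`v`. Representations are finite-dimensional over the algebraic closure of `ℚ_ℓ`. `AbVars` are the abelian
varieties with their Tate modules `V` and endomorphism algebras `E` (up to isogeny), `Newforms` the
newforms with their fields `M`, eigenvalues `a`, the exponents `level` of their levels, and their `ℓ`-adic
representations `ρ f τ`, `τ : M → ℚ̄_ℓ`. `Attached`: `A` is simple and `V(A)` is the direct sum of the
`ρ f τ`. By the theorem of Chebotarev and the compatibility with the local Langlands correspondence
(Carayol, Taylor) this means `L(A, s) = ∏ L(f^τ, s)`, Euler factor by Euler factor.

The known facts used are `AbVars.IsKnown` (Poincaré, Weil, Faltings, Chebotarev, and the action of the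
complex conjugation on the homology of the complex points), `Newforms.IsKnown` (the representations
of the newforms, strong multiplicity one), `HasBaseChange` (first a base change to a totally real field
containing `k` and `L`, by the potential automorphy of the restriction of `ρ_f` (Taylor; Barnet-Lamb, Gee,
Geraghty, Taylor), not needed if `L = ℚ`; then a totally real solvable base change (Langlands) which kills
the inertia groups up to unipotent elements: the exponent of the level is then `0` or `1` at each place)
and `ZhangTheorem` (as stated in the problem).

## The proof

Let `ρ_{f, τ}` occur over `k'` in `V(B)`. Then it occurs over `k` in `V(B₀)`, where `B₀` is the restriction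
of scalars of `B`, and therefore in `V(A)` for a simple factor `A` of `B₀`. Let `Z` be the centre of
`E = End(A) ⊗ ℚ` and `m ^ 2 = [E : Z]`. By Faltings `V(A)` is the sum of `m` copies of irreducible
representations `W σ`, `σ : Z → ℚ̄_ℓ`, where the traces of the Frobenius elements are `σ (t v)` with
generators `t v` of `Z`. One of the `W σ` is `ρ_{f, τ}`; so `τ (a v) = σ (t v)`, and this identifies `Z` with
`M_f` and the `W σ` with the representations of all conjugates of `f`. As they have dimension two,
`dim A = m [Z : ℚ]`. The field `k` has a real embedding. The fixed vectors of the complex conjugation in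
the homology of `A(ℂ)` are a vector space over the division algebra `E`, of dimension `dim A` over `ℚ`. So
`m ^ 2 [Z : ℚ]` divides `m [Z : ℚ]`, and `m = 1`.
-/

set_option autoImplicit false

namespace Pool.Agent.Results.MP_6cbef8_nt.ReductionToLevelOne

open Pool.Agent.J4.H9.HM

/-- **Descent, commensurable newforms, and the reduction to level one.** -/
theorem result {ℓ : ℕ} [Fact ℓ.Prime] {𝒜 : AbVars ℓ} (hA : 𝒜.IsKnown) {𝒩 : Newforms ℓ}
    (hN : ∀ k : NField, k.IsTotReal → ∀ f : 𝒩.New k, 𝒩.IsKnown 𝒜 f) :
    -- descent
    (∀ k : NField, k.IsTotReal → ∀ f : 𝒩.New k,
      List.TFAE [HasAV 𝒜 𝒩 f, HasAVWithEnd 𝒜 𝒩 f, OccursPotentially 𝒜 𝒩 f]) ∧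
    -- commensurable newforms
    (∀ k₁ k₂ : NField, k₁.IsTotReal → k₂.IsTotReal → ∀ (f₁ : 𝒩.New k₁) (f₂ : 𝒩.New k₂),
      Commensurable 𝒩 f₁ f₂ → (HasAV 𝒜 𝒩 f₁ ↔ HasAV 𝒜 𝒩 f₂)) ∧
    -- Q1 for all newforms, for the newforms of level one, and for the remaining ones
    (HasBaseChange 𝒩 → ZhangTheorem 𝒜 𝒩 → ∀ L : NField, L.IsTotReal →
      List.TFAE [AllNewforms 𝒜 𝒩, Q1 𝒜 𝒩, Q1LevelOne 𝒜 𝒩, Remaining 𝒜 𝒩 L]) :=
  ⟨fun _ hk f => pointwise hA hk (hN _ hk f),
    fun _ _ hk₁ hk₂ f₁ f₂ h => commensurable_iff hA hk₁ hk₂ (hN _ hk₁ f₁) (hN _ hk₂ f₂) h,
    fun hb hZ _ hL => main hA hN hb hZ hL⟩

end Pool.Agent.Results.MP_6cbef8_nt.ReductionToLevelOne
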