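import Pool.Agent.J4.H13.RD.Main

/-!
# Abelian varieties attached to Hilbert modular newforms: a criterion by residual representations

Let `f` be a Hilbert modular newform of parallel weight two with trivial central character over a totally
real field `k`, with the field of eigenvalues `M_f`. For a prime number `p` and a place `λ` of `M_f` above
`p` there is the residual representation `ρ̄_{f, λ}`. We show that the abelian variety `A_f` exists if these
occur, for infinitely many `p`, in the points of order `p` of abelian varieties with bounds:

* *Equivalence.* The abelian variety `A_f` exists if and only if there are `D`, `d` and a finite set `S` of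
  prime numbers such that for infinitely many `p` some residual representation of `f` modulo `p` occurs, over
  some field `k' ⊇ k` of degree at most `D` unramified outside `S`, in the points of order `p` of an abelian
  variety over `k'` of dimension at most `d` with good reduction outside `S`; and if and only if for all `p`
  one occurs in an abelian variety over `k` of dimension `[M_f : ℚ]` with good reduction outside the level
  of `f`.
* *One prime number is enough.* For given `D`, `d` and `S` one `p ≥ p₀(f, D, d, S)` is enough, and for every
  `p ≥ p₀(f)` the abelian variety `A_f` exists if and only if some residual representation of `f` modulo `p`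
  occurs in an abelian variety over `k` of dimension `[M_f : ℚ]` with good reduction outside the level.
* *Q1.* By the reduction to level one (`ReductionToLevelOne`), Q1 is equivalent to this for the newforms
  of level one over the totally real fields of even degree which contain a given totally real field `L`, and
  which are not commensurable with newforms covered by the theorem of Zhang.

The criterion by congruences (`CongruenceCriterion`) is about the powers of one prime number; here only
the representations modulo the prime numbers themselves are used.

## The formal statement

The framework is the one of `ReductionToLevelOne`. In addition there are the sets `bad A` of the prime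
numbers under the places of bad reduction of `A`, the semisimplified representations `tor p A` on the
points of order `p` and `rbar f p r`, and the known facts `Residual.IsKnown` (Hermite, Minkowski, Faltings,
Zarhin, Poincaré) and `FormKnown` (the traces of the Frobenius elements over the extensions of `k`; forms
without complex multiplication: the representations, and the residual representations for almost all `p`,
stay irreducible over the extensions, Ribet and Dimitrov; forms with complex multiplication: `A_f` exists,
Shimura and Casselman; the reduction of `A_f`).

## The proof

By the finiteness theorems of Hermite and Faltings there is one simple abelian variety `A` over one field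
`k'` such that residual representations of `f` occur in the points of order `p` of `A` for infinitely
many `p`. Let `Z` be the centre
of the endomorphism algebra of `A`. For these `p` there are homomorphisms `r_p` and `s_p` from the rings of
integers of `M_f` and of `Z` to the algebraic closure of the field with `p` elements with
`r_p (a v) = s_p (t v)`. The quotient of the product of these fields by a maximal ideal which contains all
elements of finite support is a field of characteristic zero, so there are embeddings `τ` and `σ` of `M_f`
and of `Z` with `τ (a v) = σ (t v)` for almost all `v`. By the theorem of Chebotarev `ρ_{f, τ}` occurs in the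
Tate module of `A`, and `A_f` exists by `ReductionToLevelOne`.
-/

set_option autoImplicit false

namespace Pool.Agent.Results.MP_6cbef8_nt.ResidualCriterion

open Pool.Agent.J4.H9.HM Pool.Agent.J4.H13.CC Pool.Agent.J4.H13.RD

/-- **`A_f` exists if and only if residual representations of `f` occur in abelian varieties with
bounds.** -/
theorem result {ℓ : ℕ} [Fact ℓ.Prime] {𝒜 : AbVars ℓ} (hA : 𝒜.IsKnown) {𝒩 : Newforms ℓ}
    {ℛ : Reductions 𝒜} {ℰ : Residual 𝒜 𝒩} (hℰ : ℰ.IsKnown ℛ)
    (hN : ∀ k : NField, k.IsTotReal → ∀ f : 𝒩.New k, 𝒩.IsKnown 𝒜 f)
    (hF : ∀ k : NField, k.IsTotReal → ∀ f : 𝒩.New k, FormKnown ℰ ℛ f) :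
    (∀ k : NField, k.IsTotReal → ∀ f : 𝒩.New k,
      -- the criterion
      List.TFAE [HasAV 𝒜 𝒩 f, OccursInfinitely ℰ ℛ f, ∀ p, OccursExactly ℰ ℛ f p] ∧
      -- one prime number is enough
      (∀ (D d : ℕ) (S : Finset ℕ), ∃ p₀ : ℕ, ∀ p : Nat.Primes, p₀ ≤ p.1 →
        OccursMod ℰ ℛ f D d S p → HasAV 𝒜 𝒩 f) ∧
      ∃ p₀ : ℕ, ∀ p : Nat.Primes, p₀ ≤ p.1 → (HasAV 𝒜 𝒩 f ↔ OccursExactly ℰ ℛ f p)) ∧
    -- Q1
    (HasBaseChange 𝒩 → ZhangTheorem 𝒜 𝒩 → ∀ L : NField, L.IsTotReal →
      (Q1 𝒜 𝒩 ↔ RemainingResidual ℰ ℛ L)) :=
  ⟨fun _ hk f => ⟨tfae hA hℰ hk (hN _ hk f) (hF _ hk f),
      has_of_mod hA hℰ hk (hN _ hk f) (hF _ hk f), one_prime hA hℰ hk (hN _ hk f) (hF _ hk f)⟩,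
    fun hb hZ _ hLr => q1_iff hA hℰ hN hF hb hZ hLr⟩

end Pool.Agent.Results.MP_6cbef8_nt.ResidualCriterion
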